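import Mathlib
import Pool.Agent.Y969.QM4

/-!
# The case `k = 2` (Dirichlet's divisor problem) outside few unit intervals

The theorem used is in the starting files (`Pool.Agent.Y969.SW.exc_divisor'`); it was not handed in before.
-/

open Filter Topology MeasureTheory

namespace Pool.Agent.Results.MP_bc6037_nt.ExceptionalSets

open Classical in
/-- The error term `Δ₂(x) = ∑_{j ≤ x} d(j) - x (log x + 2γ - 1)` of the divisor problem satisfies the conjectured
bound `|Δ₂(x)| ≤ x^{1/4 + ε}` at all real `x` outside very few unit intervals: for every `δ > 0` there is `c > 0`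
such that for all `0 < ε ≤ c` and all windows `[K, K + H)` with `H ≥ K^{1/2+δ}`, the number of the integers `n` of the
window for which `|Δ₂(y)| > y^{1/4+ε}` for at least one real `y ∈ [n, n+1)` is at most `C H^{1 - c ε log(1/ε)}`; this
is `O(H^{1-Aε})` for every `A`, once `ε` is small in terms of `A` and `δ`. -/
theorem result (E : ℝ → ℝ)
    (hE : ∀ x : ℝ, E x = ((∑ j ∈ Finset.Icc 1 ⌊x⌋₊, (j.divisors.card : ℝ)) - x * Real.log x
      - (2 * Real.eulerMascheroniConstant - 1) * x) / x ^ (1 / 4 : ℝ)) :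
    ∀ δ : ℝ, 0 < δ → ∃ c : ℝ, 0 < c ∧ ∀ ε : ℝ, 0 < ε → ε ≤ c → ∃ C : ℝ, 0 < C ∧
      ∀ K H : ℕ, 1 ≤ K → (K : ℝ) ^ (1 / 2 + δ) ≤ H →
      (((Finset.Ico K (K + H)).filter (fun n : ℕ =>
          ∃ y : ℝ, (n : ℝ) ≤ y ∧ y < n + 1 ∧ y ^ ε < |E y|)).card : ℝ)
        ≤ C * (H : ℝ) ^ (1 - c * (ε * Real.log (1 / ε))) := by
  have hEc : E = Pool.Agent.H425R3.JL.Edv := funext hE
  subst hEc
  exact Pool.Agent.Y969.SW.exc_divisor'

end Pool.Agent.Results.MP_bc6037_nt.ExceptionalSets
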