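import Pool.Agent.R461.GC.G8

set_option autoImplicit false

open MeasureTheory Filter Topology

namespace Pool.Agent.Results.MP_bc6037_nt.FractalArguments

open Pool.Agent.R461.GC
open Pool.Agent.H387R2.Vor (Ed Del)

/-- **The divisor problem at fractal arguments.** Let `Δ(x) = ∑_{n ≤ x} d(n) - x(log x + 2γ - 1)` be the function
`Δ_2` of the Piltz divisor problem.

(1) There is a law `ν` with an entire density, full support, mean `0` and variance `∑ d(m)² / (4π² m^{3/2})` such that, for all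
`0 < c₁ < c₂`, `K` and `s > 1/3`, uniformly over all probability measures `μ` on `[c₁, c₂]` with `|μ^(t)| ≤ K |t|^{-s}` for
`|t| ≥ T^{1/20}`, the law of `Δ(x)/x^{1/4}` at `x = (Tξ)²`, `ξ` distributed according to `μ`, tends to `ν` as `T → ∞`, in the
sense that the expectations of all continuous `f` of at most quadratic growth converge.

(2) So, if `|μ^(t)| ≤ K |t|^{-s}` for all `|t| ≥ 1`, then for `μ`-almost every `ξ` the conjectured bound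
`|Δ(x)| ≤ x^{1/4 + ε}` holds for all large `k` at `x = (T_k ξ)²`, for every sequence of dilations with `∑ T_k^{-4ε} < ∞`. -/
theorem result (Δ : ℝ → ℝ)
    (hΔ : ∀ x : ℝ, Δ x = ∑ n ∈ Finset.Icc 1 ⌊x⌋₊, (n.divisors.card : ℝ) - x * (Real.log x + 2 * Real.eulerMascheroniConstant - 1)) :
    (∃ (ν : ProbabilityMeasure ℝ) (G : ℂ → ℂ),
      Differentiable ℂ G ∧ (∀ x : ℝ, 0 ≤ (G x).re ∧ (G x).im = 0) ∧
      (ν : Measure ℝ) = volume.withDensity (fun x : ℝ => ENNReal.ofReal (G x).re) ∧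
      (∀ u v : ℝ, u < v → 0 < (ν : Measure ℝ) (Set.Ioo u v)) ∧
      Integrable (fun x : ℝ => x ^ 2) (ν : Measure ℝ) ∧
      ∫ x, x ∂(ν : Measure ℝ) = 0 ∧
      HasSum (fun m : ℕ => (m.divisors.card : ℝ) ^ 2 / (4 * Real.pi ^ 2) * (m : ℝ) ^ (-(3 / 2) : ℝ)) (∫ x, x ^ 2 ∂(ν : Measure ℝ)) ∧
      ∀ c₁ c₂ K s : ℝ, 0 < c₁ → 1 / 3 < s →
        ∀ f : ℝ → ℝ, Continuous f → (∃ C : ℝ, ∀ x, |f x| ≤ C * (1 + x ^ 2)) → ∀ η : ℝ, 0 < η →
        ∃ T₀ : ℝ, ∀ T, T₀ ≤ T → ∀ μ : Measure ℝ, IsProbabilityMeasure μ → (∀ᵐ y ∂μ, c₁ ≤ y ∧ y ≤ c₂) →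
          (∀ t : ℝ, T ^ (1 / 20 : ℝ) ≤ |t| → ‖∫ y, Complex.exp (((t * y : ℝ) : ℂ) * Complex.I) ∂μ‖ ≤ K * |t| ^ (-s)) →
          |∫ y, f (Δ ((T * y) ^ 2) / ((T * y) ^ 2) ^ (1 / 4 : ℝ)) ∂μ - ∫ x, f x ∂(ν : Measure ℝ)| ≤ η) ∧
    (∀ c₁ c₂ K s : ℝ, 0 < c₁ → 1 / 3 < s → ∀ μ : Measure ℝ, IsProbabilityMeasure μ → (∀ᵐ y ∂μ, c₁ ≤ y ∧ y ≤ c₂) →
      (∀ t : ℝ, 1 ≤ |t| → ‖∫ y, Complex.exp (((t * y : ℝ) : ℂ) * Complex.I) ∂μ‖ ≤ K * |t| ^ (-s)) →
      ∀ ε : ℝ, 0 < ε → ∀ T : ℕ → ℝ, (∀ k, 0 < T k) → Summable (fun k => (T k) ^ (-(4 * ε))) →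
        ∀ᵐ y ∂μ, ∀ᶠ k in atTop, |Δ ((T k * y) ^ 2)| ≤ ((T k * y) ^ 2) ^ (1 / 4 + ε)) := by
  have hΔD : ∀ x : ℝ, Δ x = Del x := by
    intro x
    rw [hΔ]
    unfold Del
    rw [show x * (Real.log x + 2 * Real.eulerMascheroniConstant - 1) =
      x * Real.log x + (2 * Real.eulerMascheroniConstant - 1) * x by ring, ← sub_sub]
    rfl
  have hq : ∀ y : ℝ, 0 < y → (y ^ 2) ^ (1 / 4 : ℝ) = √y := by
    intro y hy
    rw [← Real.rpow_natCast, ← Real.rpow_mul hy.le, Real.sqrt_eq_rpow]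
    norm_num
  have hE : ∀ y : ℝ, 0 < y → Δ (y ^ 2) / (y ^ 2) ^ (1 / 4 : ℝ) = Ed y := by
    intro y hy
    rw [hq y hy, hΔD]
    rfl
  obtain ⟨ν, G, h1, h2, h3, h4, h5, h6, h7, h8⟩ := divisor_law
  constructor
  · refine ⟨ν, G, h1, h2, h3, h4, h5, h6, h7, ?_⟩
    intro c₁ c₂ K s hc₁ hs f hf hC η hη
    obtain ⟨T₀, hT₀⟩ := h8 c₁ c₂ K s hc₁ hs f hf hC η hη
    refine ⟨max T₀ 1, fun T hT μ hμ hsupp hdec => ?_⟩
    have h9 := hT₀ T (le_trans (le_max_left _ _) hT) μ hμ hsupp hdec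
    have hT0 : 0 < T := lt_of_lt_of_le one_pos (le_trans (le_max_right _ _) hT)
    have h10 : ∫ y, f (Δ ((T * y) ^ 2) / ((T * y) ^ 2) ^ (1 / 4 : ℝ)) ∂μ = ∫ y, f (Ed (T * y)) ∂μ := by
      apply integral_congr_ae
      filter_upwards [hsupp] with y hy
      have : 0 < T * y := mul_pos hT0 (by linarith [hy.1])
      rw [hE _ this]
    rw [h10]
    exact h9
  · intro c₁ c₂ K s hc₁ hs μ hμ hsupp hdec ε hε T hT hsum
    obtain ⟨T₀, hT₀⟩ := h8 c₁ c₂ K s hc₁ hs (fun x => x ^ 2) (by fun_prop) ⟨1, fun x => by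
      rw [abs_of_nonneg (sq_nonneg x)]
      linarith⟩ 1 one_pos
    have h9 : ∀ T, max T₀ 1 ≤ T → ∫ x, (Ed (T * x)) ^ 2 ∂μ ≤ ∫ x, x ^ 2 ∂(ν : Measure ℝ) + 1 := by
      intro T hT
      have h10 := hT₀ T (le_trans (le_max_left _ _) hT) μ hμ hsupp fun t ht => hdec t
        (le_trans (Real.one_le_rpow (le_trans (le_max_right _ _) hT) (by norm_num)) ht)
      have h11 := (abs_le.1 h10).2
      linarith
    have hEm : Measurable Ed := by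
      have := Del_meas
      unfold Ed
      fun_prop
    have hEb : ∀ R₁ R₂ : ℝ, 0 < R₁ → ∃ B : ℝ, ∀ R, R₁ ≤ R → R ≤ R₂ → |Ed R| ≤ B := by
      intro R₁ R₂ hR
      obtain ⟨B, hB⟩ := E2_bdd (2 * R₁) (2 * R₂) (by linarith)
      refine ⟨B, fun R h1 h2 => ?_⟩
      have := hB (2 * R) (by linarith) (by linarith)
      unfold Pool.Agent.H383.Div.E2 at this
      rwa [show 2 * R / 2 = R by ring] at this
    have h12 := ae_small hEm hEb hc₁ μ hsupp (max T₀ 1) h9 (show 0 < 2 * ε by linarith) T hT (by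
      refine hsum.congr fun k => ?_
      congr 2
      ring)
    filter_upwards [h12, hsupp] with y hy hys
    filter_upwards [hy] with k hk
    have hR : 0 < T k * y := mul_pos (hT k) (by linarith [hys.1])
    rw [← hE _ hR, abs_div, hq _ hR, abs_of_pos (Real.sqrt_pos.2 hR), div_le_iff₀ (Real.sqrt_pos.2 hR)] at hk
    refine hk.trans (le_of_eq ?_)
    rw [Real.sqrt_eq_rpow, ← Real.rpow_add hR, ← Real.rpow_natCast, ← Real.rpow_mul hR.le]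
    congr 1
    push_cast
    ring

end Pool.Agent.Results.MP_bc6037_nt.FractalArguments
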