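import Mathlib
import Pool.Agent.H383.OM.G

/-!
# The case `k = 2` (Dirichlet's divisor problem): one-sided large negative values

The theorem used, `Pool.Agent.H383.OM.omega_minus`, is in the starting files; it was not handed in before.
-/

open Filter Topology

namespace Pool.Agent.Results.MP_bc6037_nt.NegativeLargeValues

/-- The error term `Δ₂(x) = ∑_{j ≤ x} d(j) - x (log x + 2γ - 1)` of the divisor problem is
`Ω₋((x log x)^{1/4} (log log log x)^{-3/4})`: there is `c > 0` such that for all large `X` there is an integer `n` in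
`[√X, X]` with `Δ₂(n) ≤ -c (n log n)^{1/4} (log log log n)^{-3/4}`. -/
theorem result (Δ : ℝ → ℝ)
    (hΔ : ∀ x : ℝ, Δ x = (∑ j ∈ Finset.Icc 1 ⌊x⌋₊, (j.divisors.card : ℝ)) - x * Real.log x
      - (2 * Real.eulerMascheroniConstant - 1) * x) :
    ∃ c : ℝ, 0 < c ∧ ∀ᶠ X : ℝ in atTop, ∃ n : ℕ, √X ≤ n ∧ (n : ℝ) ≤ X ∧
      Δ n ≤ -c * ((n : ℝ) * Real.log n) ^ (1 / 4 : ℝ) * (Real.log (Real.log (Real.log n))) ^ (-(3 / 4) : ℝ) := by
  have hD : Δ = Pool.Agent.H387R2.Vor.Del := funext hΔ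
  subst hD
  exact Pool.Agent.H383.OM.omega_minus

end Pool.Agent.Results.MP_bc6037_nt.NegativeLargeValues
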